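import Pool.Agent.V1149.GB.Bridge

/-!
# Bridges and a graded Betti number of graph curves

The definitions are in `Pool/Agent/V1149/GB/Defs.lean`.
-/

namespace Pool.Agent.Results.MP_764677_ag.BridgesCounted

open Pool.Agent.V1149.GB

/-- a bridge of `G`: an edge whose deletion leaves a disconnected graph -/
def IsBridgeOf {V : Type*} (G : SimpleGraph V) (e : Sym2 V) : Prop :=
  e ∈ G.edgeSet ∧ ¬ (G.deleteEdges {e}).Connected

/-- For every finite connected graph `G` with all degrees at most `3` and `d(H) ≥ 2 g(H) + 1` for
every connected subgraph `H`, and every graph curve of `G` in `P^n`, `n = d - g`, over a field of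
characteristic `0`, the graded Betti number `b_{n-1,n}` is the number of bridges of `G`. -/
theorem result {k : Type*} [Field k] [CharZero k] {V : Type*} [Fintype V] (G : SimpleGraph V)
    (hG : G.Connected) (hdeg : ∀ v, Nat.card (G.neighborSet v) ≤ 3) (hsub : SubgraphCond G)
    (n : ℕ) (hn : (n : ℤ) = (Nat.card V : ℤ) - genus G)
    (U : V → Submodule k (Fin (n + 1) → k)) (hU : IsGraphCurve G U) :
    betti (vanIdeal U) (n - 1) n = Nat.card {e : Sym2 V // IsBridgeOf G e} := by
  classical
  exact betti_eq_bridges hG hdeg hsub hU hn

end Pool.Agent.Results.MP_764677_ag.BridgesCounted
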